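import Pool.Agent.Q55.TwinIdx

/-!
# The least `k` and the least `m` in admissible decompositions `n = k + m`

For all `n` in any interval of large length `X`, with at most `ε X` exceptions, `m > c (log X)² log log X` in ALL
admissible decompositions `n = k + m`, and for all `n ≤ X` with at most `ε X` exceptions `k > c log X (log log X)²`. This
also holds if `(6 k - 1)(6 k + 1)` and `p_m + 2` are only required to have no prime factor below a small power of `k`,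
`p_m`. The starting results `AlmostAdmissible`, `ChenPairs` show that for nearly a positive proportion of the `n` there is
a decomposition of this kind with `m ≤ (log X)² (log log X)⁴`.
-/

set_option autoImplicit false

open Finset Filter

namespace Pool.Agent.Results.MP_ea8352_nt.LeastIndices

/-- the `m`-th prime, `p 1 = 2` -/
noncomputable def p (m : ℕ) : ℕ := Nat.nth Nat.Prime (m - 1)

/-- all prime factors `l` of `(6 k - 1)(6 k + 1)` satisfy `l ^ s > k` -/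
def First (s k : ℕ) : Prop := ∀ l : ℕ, l.Prime → l ∣ (6 * k - 1) * (6 * k + 1) → k < l ^ s

/-- all prime factors `l` of `p_m + 2` satisfy `l ^ s > p_m` -/
def Second (s m : ℕ) : Prop := ∀ l : ℕ, l.Prime → l ∣ p m + 2 → p m < l ^ s

/-- a decomposition `n = k + m` with these properties -/
def Dec (s n k m : ℕ) : Prop := 1 ≤ k ∧ 1 ≤ m ∧ k + m = n ∧ First s k ∧ Second s m

/-- the number of the indices `1 ≤ j < t` with the property `U` -/
noncomputable def below (U : ℕ → Prop) (t : ℕ) : ℕ := Set.ncard {j : ℕ | 1 ≤ j ∧ j < t ∧ U j}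

theorem first_of_prime {s k : ℕ} (hs : 1 ≤ s) (hk : 1 ≤ k) (h1 : (6 * k - 1).Prime) (h2 : (6 * k + 1).Prime) :
    First s k := by
  intro l hl hd
  have h3 : k < l := by
    rcases (Nat.Prime.dvd_mul hl).1 hd with h | h
    · have := (Nat.prime_dvd_prime_iff_eq hl h1).1 h
      omega
    · have := (Nat.prime_dvd_prime_iff_eq hl h2).1 h
      omega
  exact lt_of_lt_of_le h3 (Nat.le_self_pow (by omega) l)

theorem second_of_prime {s m : ℕ} (hs : 1 ≤ s) (h : (p m + 2).Prime) : Second s m := by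
  intro l hl hd
  have h3 := (Nat.prime_dvd_prime_iff_eq hl h).1 hd
  calc p m < l := by omega
    _ ≤ l ^ s := Nat.le_self_pow (by omega) l

theorem part_one (s : ℕ) (hs : 1 ≤ s) (ε : ℝ) (hε : 0 < ε) : ∃ c : ℝ, 0 < c ∧ ∀ᶠ X : ℕ in atTop, ∀ Y : ℕ,
    (Set.ncard {n : ℕ | Y < n ∧ n ≤ Y + X ∧ ∃ k m : ℕ, Dec s n k m ∧
      ((m : ℝ) ≤ c * (Real.log X ^ 2 * Real.log (Real.log X)) ∨
        (below (Second s) m : ℝ) ≤ c * Real.log X ^ 2)} : ℝ) ≤ ε * X := by
  classical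
  obtain ⟨C, hC, hcov⟩ := Pool.Agent.Q55.TwinIdx.cover s hs
  obtain ⟨c₁, hc₁, hidx⟩ := Pool.Agent.TH685.Gen.idx (Pool.Agent.Q55.TwinIdx.G s) (Pool.Agent.Q55.TwinIdx.thin s hs)
  obtain ⟨c₀, hc₀d⟩ : ∃ c₀ : ℝ, c₀ = ε / (2 * C) := ⟨_, rfl⟩
  have hc₀ : 0 < c₀ := by rw [hc₀d]; positivity
  have hlogt : Tendsto (fun X : ℕ => Real.log (X : ℝ)) atTop atTop :=
    Real.tendsto_log_atTop.comp tendsto_natCast_atTop_atTop
  refine ⟨min c₀ (c₁ * c₀ / 2), lt_min hc₀ (by positivity), ?_⟩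
  filter_upwards [hcov, hlogt.eventually_ge_atTop (max (max 3 (3 / c₀)) (1 / c₀))] with X hcov hL Y
  obtain ⟨L, hLd⟩ : ∃ L : ℝ, L = Real.log X := ⟨_, rfl⟩
  rw [← hLd] at hL hcov ⊢
  have hL3 : 3 ≤ L := (le_max_left _ _).trans ((le_max_left _ _).trans hL)
  have hL3c : 3 ≤ c₀ * L := by
    have h1 : 3 / c₀ ≤ L := (le_max_right _ _).trans ((le_max_left _ _).trans hL)
    rw [div_le_iff₀ hc₀] at h1
    linarith
  have hLc : 1 ≤ c₀ * L := by linarith
  have hl : 0 < Real.log L := Real.log_pos (by linarith)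
  have hR : 1 ≤ c₀ * L ^ 2 := by nlinarith
  have hR3 : 3 ≤ c₀ * L ^ 2 := by nlinarith
  -- the set of the elements of small rank
  obtain ⟨N, hN⟩ : ∃ N : ℕ, N = Y + X + 1 := ⟨_, rfl⟩
  obtain ⟨S, hSc, hS⟩ := Pool.Agent.TH685.Gen.first_card (Second s) (c₀ * L ^ 2) (by positivity) N
  have hsub : {n : ℕ | Y < n ∧ n ≤ Y + X ∧ ∃ k m : ℕ, Dec s n k m ∧
      ((m : ℝ) ≤ min c₀ (c₁ * c₀ / 2) * (L ^ 2 * Real.log L) ∨
        (below (Second s) m : ℝ) ≤ min c₀ (c₁ * c₀ / 2) * L ^ 2)} ⊆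
      (((Ioc Y (Y + X)).filter (fun n => ∃ k m : ℕ, 1 ≤ k ∧ m ∈ S ∧ k + m = n ∧
        Pool.Agent.Q55.TwinIdx.TI s k) : Finset ℕ) : Set ℕ) := by
    rintro n ⟨hn1, hn2, k, m, ⟨hk, hm, hkm, hF, hSe⟩, hsm⟩
    rw [mem_coe, mem_filter, mem_Ioc]
    refine ⟨⟨hn1, hn2⟩, k, m, hk, ?_, hkm, hF⟩
    by_contra hmS
    have h1 : c₀ * L ^ 2 < Pool.Agent.TH685.Gen.cn (Second s) m := hS m (by omega) hm hSe hmS
    rcases hsm with h2 | h2
    · have h3 := hidx m hm (c₀ * L ^ 2) hR3 h1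
      have h4 : Real.log L < Real.log (c₀ * L ^ 2) := by
        apply Real.log_lt_log (by linarith)
        nlinarith
      have h5 : min c₀ (c₁ * c₀ / 2) * (L ^ 2 * Real.log L) ≤ c₁ * c₀ / 2 * (L ^ 2 * Real.log L) :=
        mul_le_mul_of_nonneg_right (min_le_right _ _) (by positivity)
      have h6 : c₁ * (c₀ * L ^ 2 * Real.log L) ≤ c₁ * (c₀ * L ^ 2 * Real.log (c₀ * L ^ 2)) := by gcongr
      have h7 : 0 < c₁ * c₀ * (L ^ 2 * Real.log L) := by positivity
      nlinarith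
    · have h5 : min c₀ (c₁ * c₀ / 2) * L ^ 2 ≤ c₀ * L ^ 2 :=
        mul_le_mul_of_nonneg_right (min_le_left _ _) (by positivity)
      have h6 : (below (Second s) m : ℝ) = Pool.Agent.TH685.Gen.cn (Second s) m := rfl
      linarith
  have h1 := Set.ncard_le_ncard hsub (finite_toSet _)
  rw [Set.ncard_coe_finset] at h1
  have h2 : (S.card : ℝ) ≤ 2 * (c₀ * L ^ 2) := by linarith
  calc (Set.ncard {n : ℕ | Y < n ∧ n ≤ Y + X ∧ ∃ k m : ℕ, Dec s n k m ∧
      ((m : ℝ) ≤ min c₀ (c₁ * c₀ / 2) * (L ^ 2 * Real.log L) ∨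
        (below (Second s) m : ℝ) ≤ min c₀ (c₁ * c₀ / 2) * L ^ 2)} : ℝ) ≤ _ := by exact_mod_cast h1
    _ ≤ S.card * (C * (X / L ^ 2)) := hcov Y S
    _ ≤ 2 * (c₀ * L ^ 2) * (C * (X / L ^ 2)) := by gcongr
    _ = (2 * C * c₀) * X := by field_simp
    _ = ε * X := by rw [hc₀d]; field_simp

theorem part_two (s : ℕ) (hs : 1 ≤ s) (ε : ℝ) (hε : 0 < ε) : ∃ c : ℝ, 0 < c ∧ ∀ᶠ X : ℕ in atTop,
    (Set.ncard {n : ℕ | n ≤ X ∧ ∃ k m : ℕ, Dec s n k m ∧
      ((k : ℝ) ≤ c * (Real.log X * Real.log (Real.log X) ^ 2) ∨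
        (below (First s) k : ℝ) ≤ c * Real.log X)} : ℝ) ≤ ε * X := by
  classical
  have hfew := Pool.Agent.TH685.Gen.few_of_thin _ (Pool.Agent.Q55.TwinIdx.thin s hs)
  obtain ⟨c₀, hc₀, X₀, h⟩ := Pool.Agent.TH685.Gen.cover _ hfew ε hε
  obtain ⟨c₁, hc₁, hbig⟩ := Pool.Agent.Q55.TwinIdx.big s hs c₀ hc₀
  refine ⟨min c₀ c₁, lt_min hc₀ hc₁, ?_⟩
  have hlogt : Tendsto (fun X : ℕ => Real.log (X : ℝ)) atTop atTop :=
    Real.tendsto_log_atTop.comp tendsto_natCast_atTop_atTop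
  filter_upwards [hbig, eventually_ge_atTop X₀, hlogt.eventually_ge_atTop 3] with X hbig hX hL3
  obtain ⟨B, hB1, hB⟩ := h X hX (First s)
  have hl : 0 < Real.log (Real.log X) := Real.log_pos (by linarith)
  have hsub : {n : ℕ | n ≤ X ∧ ∃ k m : ℕ, Dec s n k m ∧
      ((k : ℝ) ≤ min c₀ c₁ * (Real.log X * Real.log (Real.log X) ^ 2) ∨
        (below (First s) k : ℝ) ≤ min c₀ c₁ * Real.log X)} ⊆ (B : Set ℕ) := by
    rintro n ⟨hn1, k, m, ⟨hk, hm, hkm, hF, hSe⟩, hsm⟩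
    by_contra hnB
    have h1 := hB n hn1 hnB m k hm hk (by omega) hSe hF
    rcases hsm with h2 | h2
    · have h3 := hbig k h1
      have h5 : min c₀ c₁ * (Real.log X * Real.log (Real.log X) ^ 2) ≤
          c₁ * (Real.log X * Real.log (Real.log X) ^ 2) :=
        mul_le_mul_of_nonneg_right (min_le_right _ _) (by positivity)
      linarith
    · have h5 : min c₀ c₁ * Real.log X ≤ c₀ * Real.log X :=
        mul_le_mul_of_nonneg_right (min_le_left _ _) (by linarith)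
      have h6 : (below (First s) k : ℝ) = Pool.Agent.TH685.Gen.cn (First s) k := rfl
      linarith
  have h1 := Set.ncard_le_ncard hsub (finite_toSet _)
  rw [Set.ncard_coe_finset] at h1
  have h2 : (Set.ncard {n : ℕ | n ≤ X ∧ ∃ k m : ℕ, Dec s n k m ∧
      ((k : ℝ) ≤ min c₀ c₁ * (Real.log X * Real.log (Real.log X) ^ 2) ∨
        (below (First s) k : ℝ) ≤ min c₀ c₁ * Real.log X)} : ℝ) ≤ B.card := by exact_mod_cast h1
  linarith

/-- **Theorem.** Let `s ≥ 1`. (1) For every `ε > 0` there is `c > 0` such that for all large `X` and all `Y`, for all `n`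
in `(Y, Y + X]` with at most `ε X` exceptions, every decomposition `n = k + m` with the properties `First s k` and
`Second s m` satisfies `m > c (log X)² log log X`, and more than `c (log X)²` smaller indices have the property
`Second s`. (2) For every `ε > 0` there is `c > 0` such that for all large `X` and all `n ≤ X` with at most `ε X`
exceptions every such decomposition satisfies `k > c log X (log log X)²`, and more than `c log X` smaller indices have
the property `First s`. (3) All admissible decompositions have these properties. -/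
theorem result :
    (∀ s : ℕ, 1 ≤ s → ∀ ε : ℝ, 0 < ε → ∃ c : ℝ, 0 < c ∧ ∀ᶠ X : ℕ in atTop, ∀ Y : ℕ,
      (Set.ncard {n : ℕ | Y < n ∧ n ≤ Y + X ∧ ∃ k m : ℕ, Dec s n k m ∧
        ((m : ℝ) ≤ c * (Real.log X ^ 2 * Real.log (Real.log X)) ∨
          (below (Second s) m : ℝ) ≤ c * Real.log X ^ 2)} : ℝ) ≤ ε * X) ∧
    (∀ s : ℕ, 1 ≤ s → ∀ ε : ℝ, 0 < ε → ∃ c : ℝ, 0 < c ∧ ∀ᶠ X : ℕ in atTop,
      (Set.ncard {n : ℕ | n ≤ X ∧ ∃ k m : ℕ, Dec s n k m ∧
        ((k : ℝ) ≤ c * (Real.log X * Real.log (Real.log X) ^ 2) ∨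
          (below (First s) k : ℝ) ≤ c * Real.log X)} : ℝ) ≤ ε * X) ∧
    ∀ s n k m : ℕ, 1 ≤ s → 1 ≤ k → 1 ≤ m → k + m = n → (6 * k - 1).Prime → (6 * k + 1).Prime →
      (p m + 2).Prime → Dec s n k m :=
  ⟨part_one, part_two, fun _ _ _ _ hs hk hm hkm h1 h2 h3 =>
    ⟨hk, hm, hkm, first_of_prime hs hk h1 h2, second_of_prime hs h3⟩⟩

end Pool.Agent.Results.MP_ea8352_nt.LeastIndices
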