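import Pool.Agent.Q315.RD2
import Pool.Agent.Y886.EPB

/-!
# Integers with many almost admissible decompositions, restricted digits

(1) For every `j` there are arbitrarily large different indices `m₁, …, mⱼ` such that the primes `p_m`, `m = mᵢ`, are Chen primes
(`p_m + 2` is a product of at most two primes) and the `2 j` forms `6 (x - mᵢ) - 1`, `6 (x - mᵢ) + 1` have no fixed prime divisor
(`Adm`).

(2) Let `g ≥ 2` be a base and `K` a large number of digits, and let `A i`, `i < K`, be arbitrary sets of digits which are not too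
small on average (`Rich`: the number `|A 0| ⋯ |A (K - 1)|` of the integers `u < g ^ K` whose `i`-th digit belongs to `A i` for all
`i < K` is at least `exp (- c K) g ^ K`, `c > 0` does not depend on the base). For ALL `m₁, …, mⱼ` with `Adm` and ALL `n₀` with
`mᵢ < n₀ ≤ g ^ (E K)` the number of the `n = n₀ + u` with these `u` such that in ALL `j` decompositions `n = (n - mᵢ) + mᵢ` both
`6 k - 1` and `6 k + 1`, `k = n - mᵢ`, have at most `r` prime factors, all larger than `g ^ (K / r)`, is of the expected order of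
magnitude from below, and the number of the `n` for which all of the `2 j` numbers are primes, from above.

The constants do not depend on the `mᵢ`, on `n₀` and on the sets `A i`.

Proof. (1) Chen's theorem (starting files) and the pigeonhole principle. (2) The theorem on almost prime values of polynomials at
integers with restricted digits, uniform in the polynomial, of the starting library (`Pool.Agent.Y816.PD.uni_fun`), in the form
`Pool.Agent.Q315.RD.formsZ`.
-/

set_option autoImplicit false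

namespace Pool.Agent.Results.MP_ea8352_nt.ManyDecompositions

open Filter Finset Polynomial
open Pool.Agent.Q315.RD

/-- the `m`-th prime, for `m ≥ 1` -/
noncomputable def pr (m : ℕ) : ℕ := Nat.nth Nat.Prime (m - 1)

/-- `q + 2` is a prime or a product of two primes, each of which, `p` say, has `p ^ 9 > q` -/
def Chen (q : ℕ) : Prop :=
  (q + 2).primeFactorsList.length ≤ 2 ∧ ∀ p : ℕ, p.Prime → p ∣ q + 2 → q < p ^ 9

/-- for all `i` both `6 (n - mᵢ) - 1` and `6 (n - mᵢ) + 1` have the property `P` -/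
def All (P : ℕ → Prop) {j : ℕ} (m : Fin j → ℕ) (n : ℕ) : Prop :=
  ∀ i, P (6 * (n - m i) - 1) ∧ P (6 * (n - m i) + 1)

/-- for every prime `p` there is an `x` such that `p` divides none of the numbers `6 (x - mᵢ) - 1`, `6 (x - mᵢ) + 1` -/
def Adm {j : ℕ} (m : Fin j → ℕ) : Prop :=
  ∀ p : ℕ, p.Prime → ∃ x : ℕ, ∀ i, ¬ (p : ℤ) ∣ 6 * ((x : ℤ) - m i) - 1 ∧ ¬ (p : ℤ) ∣ 6 * ((x : ℤ) - m i) + 1

/-- The product of `1 - ν / p` over the primes `p ≤ y`, `ν` the number of the zeros of `∏ (6 (X - mᵢ) - 1) (6 (X - mᵢ) + 1)`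
modulo `p`. -/
noncomputable def V {j : ℕ} (m : Fin j → ℕ) (y : ℕ) : ℝ :=
  rootDensity (fun x => ∏ i, ((6 * ((x : ℤ) - m i) - 1) * (6 * ((x : ℤ) - m i) + 1))) y

/-- the forms -/
def F {j : ℕ} (m : Fin j → ℕ) (n₀ : ℕ) : Fin (j + j) → ℕ → ℤ :=
  Fin.append (fun i u => 6 * (((n₀ : ℤ) + u) - m i) - 1) (fun i u => 6 * (((n₀ : ℤ) + u) - m i) + 1)

/-- the polynomial -/
noncomputable def Q {j : ℕ} (m : Fin j → ℕ) (n₀ : ℤ) : ℤ[X] :=
  ∏ i, ((C 6 * X + C (6 * (n₀ - m i) - 1)) * (C 6 * X + C (6 * (n₀ - m i) + 1)))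

lemma Q_eval {j : ℕ} (m : Fin j → ℕ) (n₀ x : ℤ) :
    (Q m n₀).eval x = ∏ i, ((6 * ((n₀ + x) - m i) - 1) * (6 * ((n₀ + x) - m i) + 1)) := by
  unfold Q
  rw [eval_prod]
  apply prod_congr rfl
  intro i _
  simp only [eval_mul, eval_add, eval_C, eval_X]
  ring

lemma lin_deg (a b : ℤ) : (C a * X + C b : ℤ[X]).natDegree ≤ 1 := natDegree_linear_le

lemma Q_deg {j : ℕ} (m : Fin j → ℕ) (n₀ : ℤ) : (Q m n₀).natDegree ≤ 2 * j := by
  unfold Q
  refine (natDegree_prod_le _ _).trans ?_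
  have h : ∀ i ∈ (univ : Finset (Fin j)),
      ((C 6 * X + C (6 * (n₀ - m i) - 1)) * (C 6 * X + C (6 * (n₀ - m i) + 1)) : ℤ[X]).natDegree ≤ 2 := by
    intro i _
    refine natDegree_mul_le.trans ?_
    have e1 := lin_deg 6 (6 * (n₀ - m i) - 1)
    have e2 := lin_deg 6 (6 * (n₀ - m i) + 1)
    omega
  refine (sum_le_card_nsmul _ _ _ h).trans ?_
  rw [card_univ, Fintype.card_fin, smul_eq_mul, mul_comm]

lemma F_prod {j : ℕ} (m : Fin j → ℕ) (n₀ u : ℕ) : ∏ i, F m n₀ i u = (Q m n₀).eval (u : ℤ) := by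
  rw [Q_eval, Fin.prod_univ_add, prod_mul_distrib]
  congr 1
  · apply prod_congr rfl
    intro i _
    unfold F
    rw [Fin.append_left]
  · apply prod_congr rfl
    intro i _
    unfold F
    rw [Fin.append_right]

lemma V_eq {j : ℕ} (m : Fin j → ℕ) (n₀ y : ℕ) : rootDensity (fun u => ∏ i, F m n₀ i u) y = V m y := by
  have h := rootDensity_shift (Q m 0) n₀ y
  unfold V
  have h1 : (fun x : ℕ => (Q m 0).eval (x : ℤ)) =
      fun x : ℕ => ∏ i, ((6 * ((x : ℤ) - m i) - 1) * (6 * ((x : ℤ) - m i) + 1)) := by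
    funext x
    rw [Q_eval]
    simp only [zero_add]
  have h2 : (fun u : ℕ => (Q m 0).eval ((n₀ : ℤ) + u)) = fun u : ℕ => ∏ i, F m n₀ i u := by
    funext u
    rw [F_prod, Q_eval, Q_eval]
    simp only [zero_add]
  rw [h1, h2] at h
  exact h

/-- many Chen indices in one residue class -/
lemma chen_class (j B P : ℕ) (hP : 0 < P) : ∃ m : Fin j → ℕ, StrictMono m ∧
    (∀ i, B ≤ m i ∧ 1 ≤ m i ∧ Pool.Agent.Y886.EP.Chen (Nat.nth Nat.Prime (m i - 1))) ∧ ∀ i i', m i ≡ m i' [MOD P] := by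
  classical
  obtain ⟨y0, hy⟩ := Pool.Agent.Y886.EP.density
  have hlog : ∀ᶠ y : ℕ in atTop, ((B + P * j : ℕ) : ℝ) * Real.log y ^ 3 < y := by
    have h1 := (Real.isLittleO_pow_log_id_atTop (n := 3)).bound
      (show (0 : ℝ) < 1 / (2 * ((B + P * j : ℕ) : ℝ) + 2) by positivity)
    have h2 := tendsto_natCast_atTop_atTop (R := ℝ) |>.eventually h1
    filter_upwards [h2, eventually_ge_atTop 1] with y h3 h4
    have hy0 : (0 : ℝ) < y := by exact_mod_cast h4
    have hl : 0 ≤ Real.log (y : ℝ) := Real.log_natCast_nonneg y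
    rw [Real.norm_of_nonneg (by positivity)] at h3
    simp only [id] at h3
    rw [Real.norm_of_nonneg hy0.le] at h3
    have hq : (0 : ℝ) ≤ ((B + P * j : ℕ) : ℝ) := Nat.cast_nonneg _
    obtain ⟨q, hq2⟩ : ∃ q : ℝ, q = ((B + P * j : ℕ) : ℝ) := ⟨_, rfl⟩
    rw [← hq2] at h3 hq ⊢
    calc q * Real.log (y : ℝ) ^ 3 ≤ q * (1 / (2 * q + 2) * y) := mul_le_mul_of_nonneg_left h3 hq
      _ = q / (2 * q + 2) * y := by ring
      _ < 1 * y := by
          apply mul_lt_mul_of_pos_right _ hy0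
          rw [div_lt_one (by positivity)]
          linarith
      _ = y := one_mul _
  obtain ⟨y, h1, h2⟩ := (hlog.and (eventually_ge_atTop (max y0 2))).exists
  obtain ⟨S, hS1, hS2, hS3⟩ := hy y ((le_max_left _ _).trans h2)
  have hy2 : 2 ≤ y := (le_max_right _ _).trans h2
  have hlogpos : 0 < Real.log (y : ℝ) := Real.log_pos (by exact_mod_cast (by omega : 1 < y))
  have hcard : B + P * j < S.card := by
    have h3 : ((B + P * j : ℕ) : ℝ) * Real.log y ^ 3 < S.card * Real.log y ^ 3 := lt_of_lt_of_le h1 hS3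
    have h4 := lt_of_mul_lt_mul_right h3 (by positivity)
    exact_mod_cast h4
  obtain ⟨T, hT⟩ : ∃ T : Finset ℕ, T = S.filter (fun m => B ≤ m) := ⟨_, rfl⟩
  have hTcard : P * j < T.card := by
    have h5 : S ⊆ T ∪ range B := by
      intro m hm
      rw [mem_union, hT, mem_filter, mem_range]
      by_cases h : B ≤ m
      · exact Or.inl ⟨hm, h⟩
      · exact Or.inr (by omega)
    have h6 := (card_le_card h5).trans (card_union_le _ _)
    rw [card_range] at h6
    omega
  obtain ⟨c, hc, hc2⟩ := exists_lt_card_fiber_of_mul_lt_card_of_maps_to (s := T) (t := range P)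
    (f := fun m => m % P) (n := j) (fun m _ => mem_coe.2 (mem_range.2 (Nat.mod_lt _ hP))) (by rwa [card_range])
  obtain ⟨U, hU, hUj⟩ := exists_subset_card_eq hc2.le
  refine ⟨fun i => U.orderEmbOfFin hUj i, (U.orderEmbOfFin hUj).strictMono, fun i => ?_, fun i i' => ?_⟩
  · have h7 := hU (U.orderEmbOfFin_mem hUj i)
    rw [mem_filter, hT, mem_filter] at h7
    exact ⟨h7.1.2, (mem_Icc.1 (hS1 h7.1.1)).1, hS2 _ h7.1.1⟩
  · have h7 := hU (U.orderEmbOfFin_mem hUj i)
    have h8 := hU (U.orderEmbOfFin_mem hUj i')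
    rw [mem_filter] at h7 h8
    unfold Nat.ModEq
    rw [h7.2, h8.2]

/-- no obstruction if all `mᵢ` are in one class modulo all small primes -/
lemma adm_class (j : ℕ) (m : Fin j → ℕ) (h : ∀ i i', m i ≡ m i' [MOD (2 * j + 1).factorial]) : Adm m := by
  classical
  intro p hp
  have hp2 := hp.two_le
  have hp0 : 0 < p := hp.pos
  rcases Nat.eq_zero_or_pos j with hj | hj
  · subst hj
    exact ⟨0, fun i => i.elim0⟩
  by_cases hsmall : p ≤ 2 * j + 1
  · -- small primes: choose `x ≡ mᵢ`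
    have hd : p ∣ (2 * j + 1).factorial := Nat.dvd_factorial hp0 hsmall
    refine ⟨m ⟨0, hj⟩, fun i => ?_⟩
    have h1 : m ⟨0, hj⟩ ≡ m i [MOD p] := (h ⟨0, hj⟩ i).of_dvd hd
    have h2 : (p : ℤ) ∣ (m ⟨0, hj⟩ : ℤ) - m i := by
      have := (Nat.modEq_iff_dvd.1 h1.symm)
      exact this
    have h3 : (p : ℤ) ∣ 6 * ((m ⟨0, hj⟩ : ℤ) - m i) := Dvd.dvd.mul_left h2 6
    have hn1 : ¬ (p : ℤ) ∣ 1 := by
      intro h
      have h5 : p ∣ 1 := by exact_mod_cast h
      have := Nat.le_of_dvd one_pos h5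
      omega
    constructor
    · intro h4
      exact hn1 ((Int.dvd_iff_dvd_of_dvd_sub h4).1 h3)
    · intro h4
      exact hn1 ((Int.dvd_add_right h3).1 h4)
  · -- large primes: counting
    push Not at hsmall
    by_contra hcon
    push Not at hcon
    have hp5 : 3 < p := by omega
    have h6 : ¬ (p : ℤ) ∣ 6 := by
      intro h
      have h7 : p ∣ 6 := by exact_mod_cast h
      have h8 := Nat.le_of_dvd (by norm_num) h7
      have : p = 4 ∨ p = 5 ∨ p = 6 := by omega
      rcases this with rfl | rfl | rfl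
      · revert hp; norm_num
      · revert h7; norm_num
      · revert hp; norm_num
    have hpz := Nat.prime_iff_prime_int.1 hp
    -- the map from the classes to the pairs (i, sign)
    have hchoose : ∀ x : ℕ, ∃ z : Fin j × Bool,
        (p : ℤ) ∣ 6 * ((x : ℤ) - m z.1) + (if z.2 then 1 else -1) := by
      intro x
      obtain ⟨i, hi⟩ := hcon x
      by_cases h1 : (p : ℤ) ∣ 6 * ((x : ℤ) - m i) - 1
      · exact ⟨(i, false), by simpa [sub_eq_add_neg] using h1⟩
      · exact ⟨(i, true), by simpa using hi h1⟩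
    choose f hf using hchoose
    have hinj : Set.InjOn f (range p : Set ℕ) := by
      intro x hx y hy hxy
      have h1 := hf x
      have h2 := hf y
      rw [← hxy] at h2
      have h3 : (p : ℤ) ∣ 6 * ((x : ℤ) - y) := by
        have h4 := dvd_sub h1 h2
        have e : (6 * ((x : ℤ) - m (f x).1) + (if (f x).2 then 1 else -1)) -
            (6 * ((y : ℤ) - m (f x).1) + (if (f x).2 then 1 else -1)) = 6 * ((x : ℤ) - y) := by ring
        rwa [e] at h4
      have h4 : (p : ℤ) ∣ (x : ℤ) - y := (hpz.dvd_or_dvd h3).resolve_left h6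
      have hx' := mem_range.1 (mem_coe.1 hx)
      have hy' := mem_range.1 (mem_coe.1 hy)
      obtain ⟨w, hw⟩ := h4
      have hw0 : w = 0 := by
        by_contra hne
        rcases lt_or_gt_of_ne hne with h5 | h5
        · have : (p : ℤ) * w ≤ -p := by nlinarith
          omega
        · have : (p : ℤ) ≤ p * w := by nlinarith
          omega
      rw [hw0, mul_zero] at hw
      omega
    have hcard := card_le_card_of_injOn f (t := (univ : Finset (Fin j × Bool))) (fun x _ => mem_coe.2 (mem_univ _)) hinj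
    rw [card_range, card_univ, Fintype.card_prod, Fintype.card_fin, Fintype.card_bool] at hcard
    omega

/-- **Integers with many almost admissible decompositions, restricted digits.** -/
theorem result (j : ℕ) (hj : 1 ≤ j) :
    (∀ B : ℕ, ∃ m : Fin j → ℕ, StrictMono m ∧ (∀ i, B ≤ m i ∧ 1 ≤ m i ∧ (pr (m i)).Prime ∧ Chen (pr (m i))) ∧ Adm m) ∧
    ∀ E : ℕ, ∃ c : ℝ, 0 < c ∧ ∃ r₀ : ℕ, 2 ≤ r₀ ∧ ∀ r : ℕ, r₀ ≤ r → ∀ g : ℕ, 2 ≤ g → ∃ κ C : ℝ, 0 < κ ∧ 0 < C ∧
      ∀ᶠ K : ℕ in atTop, ∀ (m : Fin j → ℕ) (n₀ : ℕ), Adm m → (∀ i, m i < n₀) → n₀ ≤ g ^ (E * K) →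
        ∀ A : ℕ → Finset ℕ, Rich c g K A →
        ((∃ d ∈ A 0, All (fun k => k.Coprime g) m (n₀ + d)) →
          κ * V m (g ^ K) * choices K A ≤ count g K A fun u => All (AlmostPrime (g ^ K) r) m (n₀ + u)) ∧
        (count g K A (fun u => All Nat.Prime m (n₀ + u)) : ℝ) ≤ C * V m (g ^ K) * choices K A := by
  refine ⟨fun B => ?_, fun E => ?_⟩
  · obtain ⟨m, h1, h2, h3⟩ := chen_class j B (2 * j + 1).factorial (Nat.factorial_pos _)
    refine ⟨m, h1, fun i => ?_, adm_class j m h3⟩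
    obtain ⟨a1, a2, a3, a4, a5⟩ := h2 i
    exact ⟨a1, a2, a3, a4, a5⟩
  obtain ⟨c, hc, r₀, hr₀, h⟩ := formsZ (2 * j) (2 * j * (E + 6)) (by omega)
  refine ⟨c, hc, r₀, hr₀, fun r hr g hg => ?_⟩
  obtain ⟨κ, C, hκ, hC, h1⟩ := h r hr g hg
  refine ⟨κ, C, hκ, hC, ?_⟩
  filter_upwards [h1, eventually_ge_atTop 1] with K hK hK1
  intro m n₀ hadm hm hn₀ A hA
  have hgK : 2 ≤ g ^ K := (show 2 ≤ g from hg).trans (Nat.le_self_pow (by omega) g)
  have fl : ∀ (i : Fin j) (u : ℕ), F m n₀ (Fin.castAdd j i) u = 6 * (((n₀ : ℤ) + u) - m i) - 1 := by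
    intro i u
    unfold F
    rw [Fin.append_left]
  have fr : ∀ (i : Fin j) (u : ℕ), F m n₀ (Fin.natAdd j i) u = 6 * (((n₀ : ℤ) + u) - m i) + 1 := by
    intro i u
    unfold F
    rw [Fin.append_right]
  have hall : ∀ (R : ℤ → Prop) (u : ℕ), (∀ i, R (F m n₀ i u)) ↔
      ∀ i, R (6 * (((n₀ : ℤ) + u) - m i) - 1) ∧ R (6 * (((n₀ : ℤ) + u) - m i) + 1) := by
    intro R u
    constructor
    · intro h i
      exact ⟨by rw [← fl i u]; exact h _, by rw [← fr i u]; exact h _⟩
    · intro h i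
      refine Fin.addCases (fun i => ?_) (fun i => ?_) i
      · rw [fl]; exact (h i).1
      · rw [fr]; exact (h i).2
  have hiff : ∀ (P : ℕ → Prop) (u : ℕ), ((∀ i, P (F m n₀ i u).natAbs) ↔ All P m (n₀ + u)) := by
    intro P u
    rw [hall (fun z => P z.natAbs) u]
    unfold All
    refine forall_congr' fun i => ?_
    have h1 := hm i
    have e1 : (6 * (((n₀ : ℤ) + u) - m i) - 1).natAbs = 6 * (n₀ + u - m i) - 1 := by omega
    have e2 : (6 * (((n₀ : ℤ) + u) - m i) + 1).natAbs = 6 * (n₀ + u - m i) + 1 := by omega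
    rw [e1, e2]
  have hbound : ∀ u < g ^ K, ∀ i, u ≤ (F m n₀ i u).natAbs ∧ (F m n₀ i u).natAbs ≤ g ^ ((E + 6) * K) := by
    intro u hu
    rw [hall (fun z => u ≤ z.natAbs ∧ z.natAbs ≤ g ^ ((E + 6) * K)) u]
    intro i
    have h1 := hm i
    have h3 : 12 * g ^ K + 12 * g ^ (E * K) ≤ g ^ ((E + 6) * K) := by
      obtain ⟨W, hW⟩ : ∃ W, W = g ^ K := ⟨_, rfl⟩
      obtain ⟨Y, hY⟩ : ∃ Y, Y = g ^ (E * K) := ⟨_, rfl⟩
      have hY1 : 1 ≤ Y := by rw [hY]; exact Nat.one_le_pow _ _ (by omega)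
      have e : g ^ ((E + 6) * K) = Y * W ^ 6 := by
        rw [hY, hW, ← pow_mul, ← pow_add]
        congr 1
        ring
      rw [e, ← hW, ← hY]
      rw [← hW] at hgK
      have h5 : 2 ^ 5 ≤ W ^ 5 := Nat.pow_le_pow_left hgK 5
      have h6 : 32 * W ≤ W ^ 6 := by
        calc 32 * W = 2 ^ 5 * W := by norm_num
          _ ≤ W ^ 5 * W := Nat.mul_le_mul_right _ h5
          _ = W ^ 6 := by ring
      calc 12 * W + 12 * Y ≤ Y * (32 * W) := by nlinarith
        _ ≤ Y * W ^ 6 := Nat.mul_le_mul_left _ h6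
    obtain ⟨Z, hZ⟩ : ∃ Z, Z = g ^ ((E + 6) * K) := ⟨_, rfl⟩
    rw [← hZ] at h3 ⊢
    refine ⟨⟨?_, ?_⟩, ?_, ?_⟩ <;> omega
  obtain ⟨hlow, hup⟩ := hK (j + j) (F m n₀)
    ⟨Q m n₀, Q_deg _ _, fun u => (F_prod m n₀ u).symm⟩
    (fun p hp => by
      obtain ⟨x, hx⟩ := hadm p hp
      have hpz := Nat.prime_iff_prime_int.1 hp
      refine ⟨x + (p - 1) * n₀, fun h => ?_⟩
      rw [hpz.dvd_finsetProd_iff] at h
      obtain ⟨i, -, hi⟩ := h
      have key : ∀ i, ¬ (p : ℤ) ∣ F m n₀ i (x + (p - 1) * n₀) := by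
        rw [hall (fun z => ¬ (p : ℤ) ∣ z)]
        intro i
        obtain ⟨h1, h2⟩ := hx i
        have hp1 : ((p - 1 : ℕ) : ℤ) = p - 1 := by
          rw [Nat.cast_sub hp.one_lt.le]
          norm_num
        have e1 : 6 * (((n₀ : ℤ) + ((x + (p - 1) * n₀ : ℕ) : ℤ)) - m i) - 1 =
            (6 * ((x : ℤ) - m i) - 1) + p * (6 * n₀) := by
          push_cast
          rw [hp1]
          ring
        have e2 : 6 * (((n₀ : ℤ) + ((x + (p - 1) * n₀ : ℕ) : ℤ)) - m i) + 1 =
            (6 * ((x : ℤ) - m i) + 1) + p * (6 * n₀) := by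
          push_cast
          rw [hp1]
          ring
        rw [e1, e2]
        exact ⟨fun h3 => h1 ((Int.dvd_add_left (Dvd.intro _ rfl)).1 h3),
          fun h3 => h2 ((Int.dvd_add_left (Dvd.intro _ rfl)).1 h3)⟩
      exact key i hi)
    (fun u hu i => (hbound u hu i).1)
    (fun u hu => by
      calc ∏ i, (F m n₀ i u).natAbs ≤ ∏ _i : Fin (j + j), g ^ ((E + 6) * K) :=
            prod_le_prod' fun i _ => (hbound u hu i).2
        _ = (g ^ ((E + 6) * K)) ^ (j + j) := by simp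
        _ = g ^ (2 * j * (E + 6) * K) := by
            rw [← pow_mul]
            congr 1
            ring
        _ ≤ g ^ (2 * j * (E + 6) * K) := le_rfl) A hA
  rw [V_eq] at hlow hup
  constructor
  · rintro ⟨d, hd, hd0⟩
    exact (hlow ⟨d, hd, (hiff _ d).2 hd0⟩).trans (Nat.cast_le.2 (count_mono fun t ht h => (hiff _ t).1 h))
  · exact le_trans (Nat.cast_le.2 (count_mono fun t ht h => (hiff _ t).2 h)) hup

end Pool.Agent.Results.MP_ea8352_nt.ManyDecompositions
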