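import Pool.Agent.Q234.NPU
import Pool.Agent.Y886.EPA
import Pool.Agent.Y886.EPB

/-!
# Narrow progressions of sums `k + m` with a fixed `m`, `k` in an arbitrary set of positive relative density

Call `q` a Chen prime if `q` is prime and `q + 2` is a prime or a product of two primes (all of them larger than the ninth root
of `q`). Let `K` be an ARBITRARY set of integers `k` such that `6 k - 1` is a Chen prime, which contains at least
`κ X / log ^ 2 X` elements of `(X, 2 X]` for all large `X` (the right order of magnitude), and let `M` be an ARBITRARY set of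
integers with at least `t / log ^ B t` elements up to `t`. Then for every `l` there are `c > 0` and `D` such that for all large
`X` at least `c X / (log log log log X) ^ 2` of the integers in `(X, 3 X]` lie on `l`-term arithmetic progressions with
difference at most `log ^ D X`, all of whose terms are sums of the same element `m ≤ log ^ 2 X (log log X) ^ (B + 1)` of `M` and
of an element of `K`.

This holds for the set of all the `k` such that `6 k - 1` is a Chen prime and for the set of the indices `m` such that `p_m` is a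
Chen prime.

Proof. Szemerédi's theorem relative to sifted sets (`Pool.Agent.Y843.HS.fin`) shows that almost all elements of `K` are on such
progressions in `K`; to these the hereditary theorem of the Romanoff type `Pool.Agent.Y886.EP.rom` (both in the starting library)
is applied.
-/

set_option autoImplicit false

namespace Pool.Agent.Results.MP_ea8352_nt.ProgressionsOfSums

open Finset Filter
open Pool.Agent.Y843.HS (Pr VV Pr_mem Pr_prime)

/-- `q` is a prime, and `q + 2` is a prime or a product of two primes, each of which, `p` say, has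
`p ^ 9 > q`. -/
def Chen (q : ℕ) : Prop :=
  q.Prime ∧ (q + 2).primeFactorsList.length ≤ 2 ∧ ∀ p : ℕ, p.Prime → p ∣ q + 2 → q < p ^ 9

/-- `K` consists of numbers `k` such that `6 k - 1` is a Chen prime and has, up to the factor `κ`, the right order of magnitude -/
def Large (κ : ℝ) (K : Set ℕ) : Prop :=
  (∀ k ∈ K, 1 ≤ k ∧ Chen (6 * k - 1)) ∧
    ∀ᶠ X : ℕ in atTop, κ * X / Real.log X ^ 2 ≤ (Set.ncard {k : ℕ | k ∈ K ∧ X < k ∧ k ≤ 2 * X} : ℝ)

/-- `M` has at least `t / log ^ B t` elements up to `t`, for all large `t` -/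
def Dense (B : ℕ) (M : Set ℕ) : Prop :=
  ∀ᶠ t : ℕ in atTop, (t : ℝ) / Real.log t ^ B ≤ (Set.ncard {m : ℕ | m ∈ M ∧ 1 ≤ m ∧ m ≤ t} : ℝ)

/-- `n` lies on an `l`-term arithmetic progression with difference between `1` and `D` all of whose terms are sums of an element
of `K` and of one and the same element `m` of `M`, `1 ≤ m ≤ T` -/
def OnProgression (l : ℕ) (D T : ℝ) (K M : Set ℕ) (n : ℕ) : Prop :=
  ∃ m ∈ M, 1 ≤ m ∧ (m : ℝ) ≤ T ∧ ∃ a d : ℕ, 1 ≤ d ∧ (d : ℝ) ≤ D ∧
    (∀ j < l, ∃ k ∈ K, a + j * d = k + m) ∧ ∃ j < l, n = a + j * d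

/-- the classes of the `k` such that `p` divides `6 k - 1` or `6 k + 1` -/
def Z (p : ℕ) : Finset ℕ := (range p).filter (fun c => p ∣ 6 * c + 1 ∨ p ∣ 6 * c + (p - 1))

lemma lin_unique {p a b c c' : ℕ} (hp : p.Prime) (ha : ¬ p ∣ a) (hc : c < p) (hc' : c' < p)
    (h : p ∣ a * c + b) (h' : p ∣ a * c' + b) : c = c' := by
  have h1 : a * c + b ≡ a * c' + b [MOD p] :=
    ((Nat.modEq_zero_iff_dvd).mpr h).trans ((Nat.modEq_zero_iff_dvd).mpr h').symm
  have h2 : a * c ≡ a * c' [MOD p] := Nat.ModEq.add_right_cancel' b h1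
  have h3 : c ≡ c' [MOD p] := Nat.ModEq.cancel_left_of_coprime
    ((hp.coprime_iff_not_dvd.2 ha)) h2
  have h4 : c % p = c' % p := h3
  rwa [Nat.mod_eq_of_lt hc, Nat.mod_eq_of_lt hc'] at h4

lemma lin_exists {p a b : ℕ} (hp : p.Prime) (ha : ¬ p ∣ a) : ∃ c < p, p ∣ a * c + b := by
  by_contra hcon
  push Not at hcon
  have hinj : Set.InjOn (fun c => (a * c + b) % p) (range p : Set ℕ) := by
    intro c hc c' hc' h
    have hc1 := mem_range.1 (mem_coe.1 hc)
    have hc2 := mem_range.1 (mem_coe.1 hc')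
    have h1 : a * c + b ≡ a * c' + b [MOD p] := h
    have h2 : a * c ≡ a * c' [MOD p] := Nat.ModEq.add_right_cancel' b h1
    have h3 : c ≡ c' [MOD p] := Nat.ModEq.cancel_left_of_coprime
      ((hp.coprime_iff_not_dvd.2 ha)) h2
    have h4 : c % p = c' % p := h3
    rwa [Nat.mod_eq_of_lt hc1, Nat.mod_eq_of_lt hc2] at h4
  have hmaps : ∀ c ∈ range p, (a * c + b) % p ∈ (range p).erase 0 := by
    intro c hc
    rw [mem_erase, mem_range]
    exact ⟨fun h0 => hcon c (mem_range.1 hc) (Nat.dvd_of_mod_eq_zero h0), Nat.mod_lt _ hp.pos⟩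
  have h5 := card_le_card_of_injOn (fun c => (a * c + b) % p) (fun c hc => mem_coe.2 (hmaps c (mem_coe.1 hc))) hinj
  rw [card_erase_of_mem (mem_range.2 hp.pos), card_range] at h5
  have := hp.pos
  omega

lemma Z_card_le {p : ℕ} (hp : p.Prime) (h6 : ¬ p ∣ 6) : (Z p).card ≤ 2 := by
  have h1 : Z p ⊆ (range p).filter (fun c => p ∣ 6 * c + 1) ∪ (range p).filter (fun c => p ∣ 6 * c + (p - 1)) := by
    intro c hc
    unfold Z at hc
    rw [mem_filter] at hc
    rw [mem_union, mem_filter, mem_filter]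
    rcases hc.2 with h | h
    · exact Or.inl ⟨hc.1, h⟩
    · exact Or.inr ⟨hc.1, h⟩
  refine (card_le_card h1).trans ((card_union_le _ _).trans ?_)
  have h2 : ((range p).filter (fun c => p ∣ 6 * c + 1)).card ≤ 1 := by
    rw [card_le_one]
    intro x hx y hy
    rw [mem_filter, mem_range] at hx hy
    exact lin_unique hp h6 hx.1 hy.1 hx.2 hy.2
  have h3 : ((range p).filter (fun c => p ∣ 6 * c + (p - 1))).card ≤ 1 := by
    rw [card_le_one]
    intro x hx y hy
    rw [mem_filter, mem_range] at hx hy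
    exact lin_unique hp h6 hx.1 hy.1 hx.2 hy.2
  omega

lemma Z_empty {p : ℕ} (hp : p.Prime) (h6 : p ∣ 6) : Z p = ∅ := by
  have h1 : p = 2 ∨ p = 3 := by
    have h2 := Nat.le_of_dvd (by norm_num) h6
    have h3 := hp.two_le
    have : p = 2 ∨ p = 3 ∨ p = 4 ∨ p = 5 ∨ p = 6 := by omega
    rcases this with rfl | rfl | rfl | rfl | rfl
    · exact Or.inl rfl
    · exact Or.inr rfl
    · revert hp; norm_num
    · revert h6; norm_num
    · revert hp; norm_num
  unfold Z
  rw [filter_eq_empty_iff]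
  rcases h1 with rfl | rfl
  · intro c _ h
    omega
  · intro c _ h
    omega

lemma Z_ge {p : ℕ} (hp : p.Prime) (h5 : 3 < p) : 2 ≤ (Z p).card := by
  have h6 : ¬ p ∣ 6 := by
    intro h
    have h2 := Nat.le_of_dvd (by norm_num) h
    have : p = 4 ∨ p = 5 ∨ p = 6 := by omega
    rcases this with rfl | rfl | rfl
    · revert hp; norm_num
    · revert h; norm_num
    · revert hp; norm_num
  obtain ⟨c, hc, hc1⟩ := lin_exists (b := 1) hp h6
  obtain ⟨c', hc', hc1'⟩ := lin_exists (b := p - 1) hp h6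
  have hne : c ≠ c' := by
    rintro rfl
    have h1 : p ∣ (6 * c + (p - 1)) + (6 * c + 1) := dvd_add hc1' hc1
    have e : (6 * c + (p - 1)) + (6 * c + 1) = 12 * c + p := by omega
    rw [e] at h1
    have h2 : p ∣ 12 * c := (Nat.dvd_add_left (dvd_refl p)).1 h1
    have h3 : p ∣ 6 * c * 2 := by
      have e2 : 6 * c * 2 = 12 * c := by ring
      rwa [e2]
    rcases (hp.dvd_mul).1 h3 with h4 | h4
    · have h7 : p ∣ 1 := (Nat.dvd_add_right h4).1 hc1
      have := Nat.le_of_dvd one_pos h7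
      omega
    · have := Nat.le_of_dvd (by norm_num) h4
      omega
  have hsub : ({c, c'} : Finset ℕ) ⊆ Z p := by
    intro x hx
    rw [mem_insert, mem_singleton] at hx
    unfold Z
    rw [mem_filter, mem_range]
    rcases hx with rfl | rfl
    · exact ⟨hc, Or.inl hc1⟩
    · exact ⟨hc', Or.inr hc1'⟩
  have := card_le_card hsub
  rwa [card_pair hne] at this

/-- the elements of `K` avoid the classes `Z p` -/
lemma avoid {k p : ℕ} (hp : p.Prime) (hk : 1 ≤ k) (h : Chen (6 * k - 1)) (hsm : p ^ 9 ≤ 6 * k - 1) : k % p ∉ Z p := by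
  intro hmem
  unfold Z at hmem
  rw [mem_filter] at hmem
  have hp2 := hp.two_le
  obtain ⟨h1, h2, h3⟩ := h
  have hk6 : p < 6 * k - 1 := by
    have : p ^ 1 < p ^ 9 := Nat.pow_lt_pow_right hp.one_lt (by norm_num)
    rw [pow_one] at this
    omega
  have hmod : ∀ b : ℕ, p ∣ 6 * (k % p) + b → p ∣ 6 * k + b := by
    intro b hb
    have e : 6 * k + b = (6 * (k % p) + b) + p * (6 * (k / p)) := by
      have := Nat.div_add_mod k p
      calc 6 * k + b = 6 * (p * (k / p) + k % p) + b := by rw [this]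
        _ = _ := by ring
    rw [e]
    exact dvd_add hb (Dvd.intro _ rfl)
  rcases hmem.2 with h4 | h4
  · have h5 := hmod 1 h4
    have h6 := h3 p hp (by
      have e : 6 * k - 1 + 2 = 6 * k + 1 := by omega
      rw [e]
      exact h5)
    omega
  · have h5 := hmod (p - 1) h4
    have e : 6 * k + (p - 1) = (6 * k - 1) + p := by omega
    rw [e] at h5
    have h6 : p ∣ 6 * k - 1 := (Nat.dvd_add_left (dvd_refl p)).1 h5
    have h7 := (Nat.prime_dvd_prime_iff_eq hp h1).1 h6
    omega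

lemma mf {s : Finset ℕ} {P : ℕ → Prop} {i : DecidablePred P} {k : ℕ} : k ∈ @Finset.filter ℕ P i s ↔ k ∈ s ∧ P k :=
  @Finset.mem_filter ℕ P i s k

open Classical in
lemma ncard_eq (K : Set ℕ) (X : ℕ) : Set.ncard {k : ℕ | k ∈ K ∧ X < k ∧ k ≤ 2 * X} =
    ((Ioc X (2 * X)).filter (fun k => k ∈ K)).card := by
  rw [← Set.ncard_coe_finset]
  congr 1
  ext k
  rw [mem_coe, mem_filter, mem_Ioc]
  constructor
  · rintro ⟨h1, h2, h3⟩
    exact ⟨⟨h2, h3⟩, h1⟩
  · rintro ⟨⟨h2, h3⟩, h1⟩
    exact ⟨h1, h2, h3⟩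

open Classical in
/-- almost all elements of `K` are on narrow progressions in `K` -/
lemma on_ap (l : ℕ) (hl : 1 ≤ l) (κ : ℝ) (hκ : 0 < κ) (K : Set ℕ) (hK : Large κ K) : ∃ D : ℕ, ∀ᶠ X : ℕ in atTop,
    κ / 2 * X / Real.log X ^ 2 ≤ (((Ioc X (2 * X)).filter (fun k => k ∈ K ∧
      Pool.Agent.Q234.NPU.OnAP l (Real.log X ^ D) {k | k ∈ K ∧ X < k ∧ k ≤ 2 * X} k)).card : ℝ) := by
  obtain ⟨C, hC, hVV⟩ := Pool.Agent.Q234.NPU.VV_le 2 3
  obtain ⟨D, X₀, h⟩ := Pool.Agent.Q234.NPU.few l 2 hl (1 / 10) (κ / (800 * C)) (by norm_num) (by positivity)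
  refine ⟨D, ?_⟩
  have tN : Tendsto (fun N : ℕ => (N : ℝ)) atTop atTop := tendsto_natCast_atTop_atTop
  have tp : Tendsto (fun N : ℕ => (N : ℝ) ^ (1 / 10 : ℝ)) atTop atTop :=
    (tendsto_rpow_atTop (by norm_num)).comp tN
  filter_upwards [hK.2, eventually_ge_atTop X₀, eventually_ge_atTop 2, tp.eventually_ge_atTop 4] with X h1 h2 h3 h4
  rw [ncard_eq] at h1
  obtain ⟨S, hS⟩ : ∃ S : Finset ℕ, S = (Ioc X (2 * X)).filter (fun k => k ∈ K) := ⟨_, rfl⟩
  rw [← hS] at h1
  have hX0 : (0 : ℝ) < X := by exact_mod_cast (by omega : 0 < X)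
  have hXr : (2 : ℝ) ≤ X := by exact_mod_cast h3
  have hL : 0 < Real.log (X : ℝ) := Real.log_pos (by linarith)
  have hSset : (S : Set ℕ) = {k | k ∈ K ∧ X < k ∧ k ≤ 2 * X} := by
    ext k
    rw [hS, mem_coe, mem_filter, mem_Ioc]
    constructor
    · rintro ⟨⟨h2, h3⟩, h1⟩
      exact ⟨h1, h2, h3⟩
    · rintro ⟨h1, h2, h3⟩
      exact ⟨⟨h2, h3⟩, h1⟩
  have hfew := h X X h2 Z (fun p hp _ => by
    by_cases h6 : p ∣ 6
    · rw [Z_empty hp h6]
      exact ⟨by simp, by simpa using hp.pos, fun c hc => absurd hc (notMem_empty c)⟩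
    · have h7 := Z_card_le hp h6
      refine ⟨h7, ?_, fun c hc => ?_⟩
      · have h8 := hp.two_le
        have h9 : p ≠ 2 := by
          rintro rfl
          exact h6 (by norm_num)
        omega
      · unfold Z at hc
        exact mem_range.1 (mem_filter.1 hc).1) S (by
      rw [hS, ← two_mul]
      exact filter_subset _ _) (fun k hk p hp hpX => by
      rw [hS, mem_filter, mem_Ioc] at hk
      obtain ⟨hk1, hk2⟩ := hK.1 k hk.2
      refine avoid hp hk1 hk2 ?_
      have h5 : (p : ℝ) ^ 9 ≤ X := by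
        calc (p : ℝ) ^ 9 ≤ (p : ℝ) ^ 10 := by
              have : (1 : ℝ) ≤ p := by exact_mod_cast hp.one_lt.le
              exact pow_le_pow_right₀ this (by norm_num)
          _ ≤ ((X : ℝ) ^ (1 / 10 : ℝ)) ^ 10 := pow_le_pow_left₀ (Nat.cast_nonneg _) hpX 10
          _ = X := by
              rw [← Real.rpow_natCast, ← Real.rpow_mul hX0.le]
              norm_num
      have h6 : p ^ 9 ≤ X := by exact_mod_cast h5
      omega)
  -- the sieve product
  obtain ⟨y, hy⟩ : ∃ y : ℕ, y = ⌊(X : ℝ) ^ (1 / 10 : ℝ)⌋₊ := ⟨_, rfl⟩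
  rw [← hy] at hfew
  have hy2 : (X : ℝ) ^ (1 / 10 : ℝ) / 2 ≤ y := by
    have := Nat.lt_floor_add_one ((X : ℝ) ^ (1 / 10 : ℝ))
    rw [← hy] at this
    linarith
  have hy2' : 2 ≤ y := by
    have : (2 : ℝ) ≤ y := by linarith
    exact_mod_cast this
  have hlogy : Real.log X / 20 ≤ Real.log y := by
    have e1 : (X : ℝ) ^ (1 / 20 : ℝ) ≤ y := by
      have e2 : (X : ℝ) ^ (1 / 10 : ℝ) = (X : ℝ) ^ (1 / 20 : ℝ) * (X : ℝ) ^ (1 / 20 : ℝ) := by
        rw [← Real.rpow_add hX0]
        norm_num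
      have e3 : 2 ≤ (X : ℝ) ^ (1 / 20 : ℝ) := by
        by_contra hcon
        push Not at hcon
        have e4 : 0 ≤ (X : ℝ) ^ (1 / 20 : ℝ) := Real.rpow_nonneg hX0.le _
        have : (X : ℝ) ^ (1 / 20 : ℝ) * (X : ℝ) ^ (1 / 20 : ℝ) < 2 * 2 := by nlinarith
        linarith
      rw [e2] at hy2
      nlinarith
    have e5 := Real.log_le_log (by positivity) e1
    rw [Real.log_rpow hX0] at e5
    linarith
  have hV := hVV y hy2' Z (fun p hp => by
    unfold Z
    exact (card_filter_le _ _).trans (by rw [card_range])) (fun p hp h5 => Z_ge hp h5)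
  have hV2 : VV Z 0 y ≤ 400 * C / Real.log X ^ 2 := by
    refine hV.trans ?_
    have h6 : 0 < Real.log (y : ℝ) := by linarith [div_pos hL (by norm_num : (0 : ℝ) < 20)]
    rw [div_le_div_iff₀ (by positivity) (by positivity)]
    have h7 : Real.log X ^ 2 ≤ (20 * Real.log y) ^ 2 := pow_le_pow_left₀ hL.le (by linarith) 2
    calc C * Real.log X ^ 2 ≤ C * (20 * Real.log y) ^ 2 := mul_le_mul_of_nonneg_left h7 hC.le
      _ = 400 * C * Real.log y ^ 2 := by ring
  have hfew2 : ((S.filter (fun n => ¬ Pool.Agent.Q234.NPU.OnAP l (Real.log X ^ D) (S : Set ℕ) n)).card : ℝ) ≤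
      κ / 2 * X / Real.log X ^ 2 := by
    refine hfew.trans ?_
    calc κ / (800 * C) * X * VV Z 0 y ≤ κ / (800 * C) * X * (400 * C / Real.log X ^ 2) :=
          mul_le_mul_of_nonneg_left hV2 (by positivity)
      _ = κ / 2 * X / Real.log X ^ 2 := by field_simp; norm_num
  have hsplit := Finset.card_filter_add_card_filter_not (s := S)
    (fun n => Pool.Agent.Q234.NPU.OnAP l (Real.log X ^ D) (S : Set ℕ) n)
  have hsplit' : ((S.filter (fun n => Pool.Agent.Q234.NPU.OnAP l (Real.log X ^ D) (S : Set ℕ) n)).card : ℝ) +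
      ((S.filter (fun n => ¬ Pool.Agent.Q234.NPU.OnAP l (Real.log X ^ D) (S : Set ℕ) n)).card : ℝ) = S.card := by
    exact_mod_cast hsplit
  have hfin : S.filter (fun n => Pool.Agent.Q234.NPU.OnAP l (Real.log X ^ D) (S : Set ℕ) n) =
      (Ioc X (2 * X)).filter (fun k => k ∈ K ∧
        Pool.Agent.Q234.NPU.OnAP l (Real.log X ^ D) {k | k ∈ K ∧ X < k ∧ k ≤ 2 * X} k) := by
    rw [hSset]
    ext k
    rw [mem_filter, hS, mem_filter, mem_filter]
    tauto
  rw [← hfin]
  have e : κ / 2 * X / Real.log X ^ 2 = κ * X / Real.log X ^ 2 - κ / 2 * X / Real.log X ^ 2 := by ring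
  rw [e]
  linarith

/-- **Narrow progressions of sums with a fixed `m`.** (1) For all `K`, `M` with `Large κ K`, `Dense B M` and all `l ≥ 1` there
are `c > 0` and `D` such that for all large `X` at least `c X / (log log log log X) ^ 2` of the `n` in `(X, 3 X]` lie on
`l`-term progressions with difference `≤ log ^ D X` of sums of elements of `K` and one element
`m ≤ log ^ 2 X (log log X) ^ (B + 1)` of `M`. (2) The set of all `k ≥ 1` such that `6 k - 1` is a Chen prime is `Large`, and the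
set of all `m ≥ 1` such that `p_m` is a Chen prime is `Dense` (with `B = 4`). -/
theorem result :
    (∀ (l B : ℕ) (κ : ℝ) (K M : Set ℕ), 1 ≤ l → 0 < κ → Large κ K → Dense B M →
      ∃ c : ℝ, 0 < c ∧ ∃ D : ℕ, ∀ᶠ X : ℕ in atTop,
        c * X / Real.log (Real.log (Real.log (Real.log X))) ^ 2 ≤
          (Set.ncard {n : ℕ | X < n ∧ n ≤ 3 * X ∧
            OnProgression l (Real.log X ^ D) (Real.log X ^ 2 * Real.log (Real.log X) ^ (B + 1)) K M n} : ℝ)) ∧
    (∃ κ : ℝ, 0 < κ ∧ Large κ {k | 1 ≤ k ∧ Chen (6 * k - 1)}) ∧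
    Dense 4 {m | 1 ≤ m ∧ Chen (Nat.nth Nat.Prime (m - 1))} := by
  classical
  refine ⟨?_, ?_, ?_⟩
  · intro l B κ K M hl hκ hK hM
    obtain ⟨D, hD⟩ := on_ap l hl κ hκ K hK
    obtain ⟨r0, hr0, hrom⟩ := Pool.Agent.Y886.EP.rom
    obtain ⟨c, hc, X₀, hX₀⟩ := hrom (max r0 9) (le_max_left _ _)
      (fun X k => k ∈ K ∧ Pool.Agent.Q234.NPU.OnAP l (Real.log X ^ D) {k | k ∈ K ∧ X < k ∧ k ≤ 2 * X} k)
      (fun X k hXk _ h => by
        obtain ⟨h1, h2, h3, h4⟩ := hK.1 k h.1
        have e : 6 * k - 1 + 2 = 6 * k + 1 := by omega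
        rw [e] at h3
        refine ⟨h2, h3.trans ((by norm_num : 2 ≤ 9).trans (le_max_right _ _)), ?_⟩
        intro p hp hd
        have h5 := h4 p hp (by rw [e]; exact hd)
        have hXp : (X : ℝ) < (p : ℝ) ^ 9 := by exact_mod_cast (by omega : X < p ^ 9)
        have hr9 : (9 : ℝ) ≤ ((max r0 9 : ℕ) : ℝ) := by exact_mod_cast le_max_right r0 9
        rcases Nat.eq_zero_or_pos X with hX | hX
        · subst hX
          have h6 : (0 : ℝ) < p := by exact_mod_cast hp.pos
          rw [Nat.cast_zero, Real.zero_rpow]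
          · exact h6
          · positivity
        · have hX1 : (1 : ℝ) ≤ X := by exact_mod_cast hX
          calc (X : ℝ) ^ (1 / ((max r0 9 : ℕ) : ℝ)) ≤ (X : ℝ) ^ (1 / 9 : ℝ) :=
                Real.rpow_le_rpow_of_exponent_le hX1 (one_div_le_one_div_of_le (by norm_num) hr9)
            _ < ((p : ℝ) ^ 9) ^ (1 / 9 : ℝ) := Real.rpow_lt_rpow (by positivity) hXp (by norm_num)
            _ = p := by
                rw [← Real.rpow_natCast, ← Real.rpow_mul (Nat.cast_nonneg _)]
                norm_num)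
      (κ / 2) (by positivity) (by
        filter_upwards [hD] with X hX
        refine hX.trans (Nat.cast_le.2 (card_le_card fun k hk => ?_))
        have hk2 := mf.1 hk
        exact mf.2 hk2) B M (by
        obtain ⟨y0, hy0⟩ := eventually_atTop.1 hM
        refine ⟨max y0 2, fun y hy => ⟨(Icc 1 y).filter (· ∈ M), filter_subset _ _,
          fun a ha => (mem_filter.1 ha).2, ?_⟩⟩
        have h1 := hy0 y ((le_max_left _ _).trans hy)
        have h2 : 2 ≤ y := (le_max_right _ _).trans hy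
        have h3 : 0 < Real.log (y : ℝ) := Real.log_pos (by exact_mod_cast (by omega : 1 < y))
        have e : {m : ℕ | m ∈ M ∧ 1 ≤ m ∧ m ≤ y} = (((Icc 1 y).filter (· ∈ M) : Finset ℕ) : Set ℕ) := by
          ext m
          rw [mem_coe, mem_filter, mem_Icc]
          constructor
          · rintro ⟨a1, a2, a3⟩
            exact ⟨⟨a2, a3⟩, a1⟩
          · rintro ⟨⟨a2, a3⟩, a1⟩
            exact ⟨a1, a2, a3⟩
        rw [e, Set.ncard_coe_finset, div_le_iff₀ (by positivity)] at h1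
        exact h1)
    refine ⟨c, hc, D, ?_⟩
    filter_upwards [eventually_ge_atTop X₀] with X hX
    obtain ⟨I, hI1, hI2, hI3⟩ := hX₀ X hX
    refine hI3.trans ?_
    have hfin : {n : ℕ | X < n ∧ n ≤ 3 * X ∧ OnProgression l (Real.log X ^ D)
        (Real.log X ^ 2 * Real.log (Real.log X) ^ (B + 1)) K M n}.Finite :=
      (Set.finite_Iic (3 * X)).subset (fun n hn => hn.2.1)
    have hsub : (I : Set ℕ) ⊆ {n : ℕ | X < n ∧ n ≤ 3 * X ∧ OnProgression l (Real.log X ^ D)
        (Real.log X ^ 2 * Real.log (Real.log X) ^ (B + 1)) K M n} := by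
      intro n hn
      have h3 := mem_Ioc.1 (hI1 hn)
      obtain ⟨k, m, hkm, hmM, hm1, hmL, hk1, hk2, hkK, a, d, hd1, hd2, hd3, j, hj, hkj⟩ := hI2 n hn
      refine ⟨h3.1, h3.2, m, hmM, hm1, hmL, a + m, d, hd1, hd2, ?_, j, hj, ?_⟩
      · intro i hi
        exact ⟨a + i * d, (hd3 i hi).1, by omega⟩
      · omega
    have h5 := Set.ncard_le_ncard hsub hfin
    rw [Set.ncard_coe_finset] at h5
    exact_mod_cast h5
  · obtain ⟨κ, hκ, hmany⟩ := Pool.Agent.Y886.EP.count_CP
    refine ⟨κ, hκ, fun k hk => hk, ?_⟩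
    filter_upwards [hmany, eventually_ge_atTop 1] with X hX hX1
    refine hX.trans ?_
    show _ ≤ ((Set.ncard {k : ℕ | k ∈ ({k | 1 ≤ k ∧ Chen (6 * k - 1)} : Set ℕ) ∧ X < k ∧ k ≤ 2 * X} : ℕ) : ℝ)
    rw [ncard_eq]
    apply Nat.cast_le.2
    apply card_le_card
    intro k hk
    have hk2 := mf.1 hk
    have hk3 := mem_Ioc.1 hk2.1
    exact mf.2 ⟨hk2.1, by omega, Pool.Agent.Y886.EP.chen_of (by omega) hk3.2 hk2.2⟩
  · obtain ⟨y0, hy⟩ := Pool.Agent.Y886.EP.density
    have hlog : ∀ᶠ y : ℕ in atTop, 1 ≤ Real.log (y : ℝ) :=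
      (Real.tendsto_log_atTop.comp tendsto_natCast_atTop_atTop).eventually_ge_atTop 1
    filter_upwards [eventually_ge_atTop y0, hlog] with y h1 h2
    obtain ⟨S, hS1, hS2, hS3⟩ := hy y h1
    have h3 : (y : ℝ) ≤ S.card * Real.log y ^ 4 := by
      refine hS3.trans (mul_le_mul_of_nonneg_left ?_ (Nat.cast_nonneg _))
      exact pow_le_pow_right₀ h2 (by norm_num)
    rw [div_le_iff₀ (by positivity)]
    refine h3.trans (mul_le_mul_of_nonneg_right ?_ (by positivity))
    rw [← Set.ncard_coe_finset S]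
    apply Nat.cast_le.2
    apply Set.ncard_le_ncard
    · intro m hm
      have h4 := mem_Icc.1 (hS1 hm)
      exact ⟨⟨h4.1, hS2 m hm⟩, h4.1, h4.2⟩
    · exact (Set.finite_Iic y).subset (fun m hm => hm.2.2)

end Pool.Agent.Results.MP_ea8352_nt.ProgressionsOfSums
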