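import Pool.Agent.Q234.StR

/-!
# Every large `n`, almost all pairs of shifts: `6k - 1`, `6k - 1 + h` and `p_m`, `p_m + h'` prime, `n = k + m`

Q1 asks, for every `n > 2`, for a decomposition `n = k + m` for which `6 k - 1`, `6 k + 1` are primes and `p_m`,
`p_m + 2` are primes. Both differences `2` are replaced here by almost all pairs `(h, h')` of multiples of a small
primorial `M`, the product of the primes up to `y`, where `y` is of the order of magnitude `log log n`, so that `M`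
is a power of `log n`.

For EVERY large `n` and EVERY set `K` of at least `n / log ^ A n` integers `0 < k < n` with `6 k - 1` prime (for
instance the set of all of them) the numbers `6 k - 1 + h` and `p_m + h'`, `m = n - k`, are simultaneously prime for
the expected number of the elements `k` of `K`, for almost all pairs.
-/

set_option autoImplicit false

open Finset

namespace Pool.Agent.Results.MP_ea8352_nt.ShiftPairs

/-- The `k`-th prime: `p 1 = 2`, `p 2 = 3`. -/
noncomputable def p (k : ℕ) : ℕ := Nat.nth Nat.Prime (k - 1)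

/-- The product of `1 - 1/q` over the primes `q ≤ y`. -/
noncomputable def V (y : ℕ) : ℝ := ∏ q ∈ (Icc 1 y).filter Nat.Prime, (1 - 1 / (q : ℝ))

open Classical in
/-- The `k ∈ K` such that with `m = n - k` the numbers `6 k - 1`, `6 k - 1 + h 0`, `p_m` and `p_m + h 1` are prime. -/
noncomputable def Good (n : ℕ) (K : Finset ℕ) (h : Fin 2 → ℕ) : Finset ℕ :=
  K.filter (fun k => ((6 * k - 1).Prime ∧ (6 * k - 1 + h 0).Prime) ∧ ((p (n - k)).Prime ∧ (p (n - k) + h 1).Prime))

theorem nth_inj : Function.Injective (Nat.nth Nat.Prime) := Nat.nth_injective Nat.infinite_setOfPred_prime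

/-- the two sequences of primes -/
noncomputable def F (n : ℕ) : Fin 2 → ℕ → ℕ := ![fun k => 6 * k - 1, fun k => p (n - k)]

theorem F_inj (n : ℕ) (i : Fin 2) : Set.InjOn (F n i) (Ioo 0 n : Finset ℕ) := by
  intro a ha b hb hab
  rw [mem_coe, mem_Ioo] at ha hb
  fin_cases i
  · have h1 : 6 * a - 1 = 6 * b - 1 := hab
    omega
  · have := nth_inj hab
    omega

/-- For all `A`, `C` and `0 < ε ≤ 1` there is `K₀` such that for every `K₁` and every large `n`, every `y`
between `K₀ log log n` and `K₁ log log n`, with `M` the product of the primes `≤ y`, and all windows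
`(g₀ i, g₀ i + G i]` with `M (g₀ i + G i) ≤ n`, `G i ≥ n / (M log ^ C n)`, `i = 0, 1`: for every set `K` of
at least `n / log ^ A n` integers `0 < k < n` with `6 k - 1` prime, for all but at most `ε (G 0) (G 1)` of the pairs
`g`, `1 ≤ g i ≤ G i`, with `h_i = M (g₀ i + g i)` and `m = n - k`, for at least `(1 - ε) #K / (V y log n) ^ 2` elements
`k` of `K` the four numbers `6 k - 1`, `6 k - 1 + h_0`, `p_m`, `p_m + h_1` are prime. -/
theorem result : ∀ (A C : ℕ) (ε : ℝ), 0 < ε → ε ≤ 1 → ∃ K₀ : ℕ, ∀ K₁ : ℕ, ∃ n₀ : ℕ, ∀ n : ℕ, n₀ ≤ n →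
    ∀ y : ℕ, K₀ * Real.log (Real.log n) ≤ y → y ≤ K₁ * Real.log (Real.log n) →
    ∀ g₀ G : Fin 2 → ℕ, (∀ i, primorial y * (g₀ i + G i) ≤ n) →
      (∀ i, (n : ℝ) ≤ primorial y * G i * Real.log n ^ C) →
    ∀ K : Finset ℕ, K ⊆ Ioo 0 n → (∀ k ∈ K, (6 * k - 1).Prime) → (n : ℝ) ≤ K.card * Real.log n ^ A →
      (((Fintype.piFinset fun i => Icc 1 (G i)).filter (fun g =>
        ((Good n K (fun i => primorial y * (g₀ i + g i))).card : ℝ) <
        (1 - ε) * (K.card / (V y * Real.log n) ^ 2))).card : ℝ) ≤ ε * (G 0 * G 1) := by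
  classical
  intro A C ε hε hε1
  obtain ⟨K₀', hK₀'⟩ := Pool.Agent.Q234.StR.stepR 3 C 2 (fun _ => 1) (fun _ => Or.inl rfl) A ε hε hε1
  refine ⟨K₀', fun K₁ => ?_⟩
  obtain ⟨n2', hn2'⟩ := hK₀' K₁
  obtain ⟨n3, hn3⟩ := Pool.Agent.H373R2.T7.ev_L' 6
  obtain ⟨n4, hn4⟩ := Pool.Agent.Q234.StR.nth_le_logB 0
  refine ⟨max n2' (max n3 n4), fun n hn y hy1 hy2 g₀ G hg1 hg2 K hK hKp hKc => ?_⟩
  have b2' : n2' ≤ n := le_trans (le_max_left _ _) hn
  have b3 : n3 ≤ n := le_trans (le_trans (le_max_left _ _) (le_max_right _ _)) hn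
  have b4 : n4 ≤ n := le_trans (le_trans (le_max_right _ _) (le_max_right _ _)) hn
  have hL6 := hn3 n b3
  have h1 := hn2' n b2' y hy1 hy2 K hKc (F n) (fun i => (F_inj n i).mono (by exact_mod_cast hK)) (by
    intro i k hk
    have hk2 := mem_Ioo.1 (hK hk)
    fin_cases i
    · refine ⟨hKp k hk, ?_⟩
      show ((6 * k - 1 : ℕ) : ℝ) ≤ n * Real.log n ^ 3
      have e1 : ((6 * k - 1 : ℕ) : ℝ) ≤ 6 * n := by
        have : 6 * k - 1 ≤ 6 * n := by omega
        exact_mod_cast this
      have e2 : (6 : ℝ) ≤ Real.log n ^ 3 := by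
        calc (6 : ℝ) ≤ 6 ^ 3 := by norm_num
          _ ≤ Real.log n ^ 3 := pow_le_pow_left₀ (by norm_num) hL6 3
      have e3 : (0 : ℝ) ≤ n := Nat.cast_nonneg _
      nlinarith
    · refine ⟨Nat.prime_nth_prime _, ?_⟩
      show (Nat.nth Nat.Prime (n - k - 1) : ℝ) ≤ n * Real.log n ^ 3
      have e1 := hn4 n b4 (n - k) (by
        rw [pow_zero, mul_one]
        have : n - k ≤ n := Nat.sub_le _ _
        exact_mod_cast this)
      rwa [zero_add] at e1) g₀ G (fun i => by rw [pow_one]; exact hg1 i) (fun i => by rw [pow_one]; exact hg2 i)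
  rw [Fin.prod_univ_two, Fin.prod_univ_two] at h1
  refine le_trans (le_of_eq ?_) h1
  congr 2
  apply filter_congr
  intro g _
  have e1 : K.filter (fun j => ∀ i, (F n i j ^ 1 + primorial y * (g₀ i + g i)).Prime) =
      Good n K (fun i => primorial y * (g₀ i + g i)) := by
    unfold Good
    apply filter_congr
    intro k hk
    rw [Fin.forall_fin_succ, Fin.forall_fin_one]
    simp only [pow_one]
    exact ⟨fun h => ⟨⟨hKp k hk, h.1⟩, ⟨Nat.prime_nth_prime _, h.2⟩⟩, fun h => ⟨h.1.2, h.2.2⟩⟩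
  have e2 : (Pool.Agent.H373R2.T7.Vz y * (((1 : ℕ) : ℝ) * Real.log n)) * (Pool.Agent.H373R2.T7.Vz y * (((1 : ℕ) : ℝ) * Real.log n)) =
      (V y * Real.log n) ^ 2 := by
    have : V y = Pool.Agent.H373R2.T7.Vz y := rfl
    rw [this]
    push_cast
    ring
  rw [e1, e2]

end Pool.Agent.Results.MP_ea8352_nt.ShiftPairs
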